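import Pool.Agent.TH648.EN.Raised
import Pool.Agent.TH648.UX.Smooth

/-! Smooth general members at every `n ≥ 37` general points of one multiplicity. -/

namespace Pool.Agent.TH648.EN

open Finset Pool.Agent.H932R3 Pool.Agent.H248R5 Pool.Agent.H248R6
open Pool.Agent.TH648.UX (aeval_ne_of_ind pred_num)

/-- the expected dimension at general points in all degrees -/
def HY {n : ℕ} (w : Fin n → ℕ) : Prop :=
  ∀ (L : Type) [Field L] [CharZero L], ∃ F : MvPolynomial (Fin n × Fin 2) ℚ, F ≠ 0 ∧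
    ∀ P : Fin n → Fin 2 → L, MvPolynomial.aeval (fun ij : Fin n × Fin 2 => P ij.1 ij.2) F ≠ 0 →
    ∀ d, ExpDim L w P d

theorem HY_zero {n : ℕ} {w : Fin n → ℕ} (hw : ∀ i, w i = 0) : HY w := by
  intro L _ _
  obtain ⟨F, hF, hF'⟩ := Pool.Agent.TH648.UX.HX_zero hw
  exact ⟨F, hF, fun P hP d => hF' P hP d⟩

theorem HY_uni {n : ℕ} (hn : 37 ≤ n) (m : ℕ) : HY (fun _ : Fin n => m) := by
  rcases Nat.eq_zero_or_pos m with h | h
  · exact HY_zero fun _ => h
  · intro L _ _
    exact Pool.Agent.TH641.EN.exp37 hn h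

theorem HY_raised {n : ℕ} (hn : 37 ≤ n) {m : ℕ} (hm : 1 ≤ m) (k : Fin n) :
    HY (Function.update (fun _ : Fin n => m) k (m + 1)) := fun _ _ _ => exp_raised hn hm k

/-- **every `n ≥ 37`, every multiplicity, every degree** -/
theorem smooth37 {n M : ℕ} (hn : 37 ≤ n) (hM : 0 < M) {K : Type} [Field K] [CharZero K] :
    ∃ F : MvPolynomial (Fin n × Fin 2) ℚ, F ≠ 0 ∧ ∀ P : Fin n → Fin 2 → K,
      MvPolynomial.aeval (fun ij : Fin n × Fin 2 => P ij.1 ij.2) F ≠ 0 →
      (∀ d, Module.finrank K ↥(forms (fun _ => M) P d) =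
        (d + 2).choose 2 - n * (M + 1).choose 2) ∧
      ∀ w : Fin n → ℕ, (∀ i, w i ≤ M) → ∀ d, n * (M + 1).choose 2 + M < (d + 2).choose 2 →
        Module.finrank K ↥(forms w P d) + ∑ i, (w i + 1).choose 2 = (d + 2).choose 2 ∧
          GeneralMember (forms w P d) (SmoothMember w P) := by
  classical
  have hn0 : 0 < n := by omega
  choose G hG hG' using fun k => HY_raised hn hM k K
  obtain ⟨F3, hF3, hF3'⟩ := HY_uni hn M K
  obtain ⟨F, hF, hF'⟩ := open_all (K := K) (n := n) (M := M) hn0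
    (fun d => n * (M + 1).choose 2 + M + 1 ≤ (d + 2).choose 2) (n * (M + 1))
    (fun e he L _ _ P hP => by
      refine ⟨fun k => ?_, ?_⟩
      · obtain ⟨Gk, hGk, hGk'⟩ := HY_raised hn hM k L
        exact surj_upd_of (hGk' P (aeval_ne_of_ind hGk hP) (e + 1)) he
      · obtain ⟨F4, hF4, hF4'⟩ := HY_uni hn (M - 1) L
        exact surj_const_of (hF4' P (aeval_ne_of_ind hF4 hP) e) (pred_num he))
    ⟨∏ k, G k, Finset.prod_ne_zero_iff.2 fun k _ => hG k, fun P hP e he k => by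
      rw [map_prod] at hP
      exact surj_upd_of (hG' k P (Finset.prod_ne_zero_iff.1 hP k (Finset.mem_univ k)) (e + 1)) he⟩
    ⟨F3, hF3, fun P hP d hd => surj_const_of (hF3' P hP d) (large hn0 hd)⟩
  refine ⟨F * F3, mul_ne_zero hF hF3, fun P hP => ?_⟩
  rw [map_mul] at hP
  refine ⟨fun d => ?_, fun w hw d hd => ?_⟩
  · have h2 : Module.finrank K ↥(forms (fun _ : Fin n => M) P d) =
      (d + 2).choose 2 - ∑ i : Fin n, (M + 1).choose 2 := hF3' P (right_ne_zero_of_mul hP) d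
    rw [h2, Finset.sum_const, Finset.card_univ, Fintype.card_fin, smul_eq_mul]
  · obtain ⟨e, rfl⟩ : ∃ e, d = e + 1 := by
      refine ⟨d - 1, ?_⟩
      rcases Nat.eq_zero_or_pos d with h0 | h0
      · exfalso
        subst h0
        have h3 : (0 + 2).choose 2 = 1 := rfl
        rw [h3] at hd
        omega
      · omega
    exact hF' P (left_ne_zero_of_mul hP) w hw e (Or.inl hd)

end Pool.Agent.TH648.EN
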