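import Pool.Agent.TH648.EN.Ends

/-! Equal multiplicities with one raised by one: the expected dimension in all degrees,
every `n ≥ 37`. -/

namespace Pool.Agent.TH648.EN

open Finset Pool.Agent.TH176.Nag Pool.Agent.TH603.Sur Pool.Agent.TH641.UM Pool.Agent.TH641.EN
open Pool.Agent.TH760.EN Pool.Agent.H932R3
open Pool.Agent.TH763.DB (doubling_of)

theorem ms_update {n : ℕ} (u : Fin n → ℕ) (k : Fin n) (v : ℕ) :
    ms (Function.update u k v) + {u k} = ms u + {v} := by
  classical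
  unfold ms
  rw [← Finset.add_sum_erase _ _ (mem_univ k), ← Finset.add_sum_erase univ (fun i => ({u i} : Multiset ℕ))
    (mem_univ k)]
  rw [Function.update_self]
  have e : ∑ i ∈ univ.erase k, ({Function.update u k v i} : Multiset ℕ) =
      ∑ i ∈ univ.erase k, {u i} := by
    refine sum_congr rfl fun i hi => ?_
    rw [Function.update_of_ne (ne_of_mem_erase hi)]
  rw [e]
  abel

/-- the conclusion of the doubling theorem with spectators -/
theorem crit_spec {κ : Type} [Fintype κ] {e : κ → ℕ} {a c n m d : ℕ} (ha : 0 < a)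
    (hn : n = 4 * a + c) (hms : ms e + {m} = c • {m} + {m + 1}) (k : Fin n)
    (h1 : Sur (Sum.elim (fun _ : Fin a => 2 * m) e) (TZ d))
    (h2 : Emp (Sum.elim (fun _ : Fin a => 2 * m + 1) e) (TZ d)) :
    ((d + 2).choose 2 ≤ Pool.Agent.TH603.Sur.cond (Function.update (fun _ : Fin n => m) k (m + 1)) →
      Emp (Function.update (fun _ : Fin n => m) k (m + 1)) (TZ d)) ∧
    (Pool.Agent.TH603.Sur.cond (Function.update (fun _ : Fin n => m) k (m + 1)) ≤ (d + 2).choose 2 →
      Sur (Function.update (fun _ : Fin n => m) k (m + 1)) (TZ d)) := by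
  rw [← coe_TF] at h1 h2
  have key := doubling_of clu (N := a) (m := m) (e := e) ha (S := TF d)
    (fun u hu => by
      have hu' : u ∈ TZ d := by rw [← coe_TF]; exact mem_coe.2 hu
      exact ⟨hu'.1, hu'.2.1⟩) h1 h2
  have hm : ms (Sum.elim (fun _ : Fin a × (Fin 2 × Fin 2) => m) e) =
      ms (Function.update (fun _ : Fin n => m) k (m + 1)) := by
    have h3 := ms_update (fun _ : Fin n => m) k (m + 1)
    have h4 : ms (Sum.elim (fun _ : Fin a × (Fin 2 × Fin 2) => m) e) + {m} =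
        ms (fun _ : Fin n => m) + {m + 1} := by
      rw [ms_sum, ms_const, ms_fin, hn, add_assoc, hms, ← add_assoc, ← add_smul]
      congr 2
      simp
      ring
    exact add_right_cancel (h4.trans h3.symm)
  have hc : Pool.Agent.TH603.Sur.cond (Sum.elim (fun _ : Fin a × (Fin 2 × Fin 2) => m) e) =
      Pool.Agent.TH603.Sur.cond (Function.update (fun _ : Fin n => m) k (m + 1)) := by
    rw [cond_ms, cond_ms, hm]
  rw [hc, card_TF, coe_TF] at key
  exact ⟨fun h => Emp_of_ms hm.le (key.1 h), fun h => Sur_of_ms hm (key.2 h)⟩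

/-- the inequalities in the critical degrees -/
theorem raised_arith {n m d : ℕ} (h37 : 37 ≤ n) {a c C : ℝ} (hc : c ≤ 7) (hC : C ≤ 9 / 4)
    (hnac : (n : ℝ) = 4 * a + c)
    (hd : |2 * (d : ℝ) + 3 - (√(n : ℝ) + 2 * ((n : ℝ) * m + 1) / √(n : ℝ))| < 4 / 3) :
    √(n : ℝ) * d < (n : ℝ) * m + 2 * a ∧
      (n : ℝ) * m / 2 + n / 4 + C < √(n : ℝ) / 2 * (d + 3) := by
  have hnR : (37 : ℝ) ≤ n := by exact_mod_cast h37
  obtain ⟨s, hs⟩ : ∃ s : ℝ, s = √(n : ℝ) := ⟨_, rfl⟩
  have hss : s * s = n := by rw [hs]; exact Real.mul_self_sqrt (by linarith)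
  have hs6 : 6 ≤ s := by rw [hs]; exact Real.le_sqrt_of_sq_le (by norm_num; linarith)
  rw [← hs] at hd ⊢
  obtain ⟨h1, h2⟩ := abs_lt.1 hd
  have h3 := mul_lt_mul_of_pos_left h2 (show 0 < s by linarith)
  have h4 := mul_lt_mul_of_pos_left h1 (show 0 < s by linarith)
  have e : s * (2 * (d : ℝ) + 3 - (s + 2 * ((n : ℝ) * m + 1) / s)) =
      2 * (s * d) + 3 * s - n - 2 * (n * m + 1) := by
    have hs0 : s ≠ 0 := by linarith
    have : s * (2 * ((n : ℝ) * m + 1) / s) = 2 * ((n : ℝ) * m + 1) := by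
      field_simp
    rw [mul_sub, mul_add, mul_add s s, this, hss]
    ring
  rw [e] at h3 h4
  constructor
  · linarith
  · linarith

/-- the two ends give the critical degrees -/
theorem crit_raised_of {κ : Type} [Fintype κ] {e : κ → ℕ} {t : ℕ → ℕ} {a c n m : ℕ} {C : ℝ}
    (ha : 0 < a) (hn : n = 4 * a + c) (h37 : 37 ≤ n) (hc7 : c ≤ 7) (hC : C ≤ 9 / 4)
    (hms : ms e + {m} = c • {m} + {m + 1}) (hU : Uni e t (2 * m + 1))
    (ht : ∀ k, k ≤ 2 * m → (t k : ℝ) ≤ (c : ℝ) / 4 * (2 * m - k) + C)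
    (hE : EndE c) (hcard : Fintype.card κ = c) (he : ∀ i, m ≤ e i) (k : Fin n) {d : ℕ}
    (hd : |2 * (d : ℝ) + 3 - (√(n : ℝ) + 2 * ((n : ℝ) * m + 1) / √(n : ℝ))| < 4 / 3) :
    ((d + 2).choose 2 ≤ Pool.Agent.TH603.Sur.cond (Function.update (fun _ : Fin n => m) k (m + 1)) →
      Emp (Function.update (fun _ : Fin n => m) k (m + 1)) (TZ d)) ∧
    (Pool.Agent.TH603.Sur.cond (Function.update (fun _ : Fin n => m) k (m + 1)) ≤ (d + 2).choose 2 →
      Sur (Function.update (fun _ : Fin n => m) k (m + 1)) (TZ d)) := by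
  have hnac : (n : ℝ) = 4 * (a : ℝ) + (c : ℝ) := by rw [hn]; push_cast; ring
  obtain ⟨h1, h2⟩ := raised_arith h37 (by exact_mod_cast hc7 : (c : ℝ) ≤ 7) hC hnac hd
  exact crit_spec ha hn hms k (Sur_end hn (by omega) hU ht h2)
    (Emp_end hE hcard he hn (by omega) h1)

theorem Uni2 (m : ℕ) : Uni ![m + 1, m] (fun k => (m + 1 + m + 1 - k) / 2) (2 * m + 1) :=
  Uni_pair (by omega) (by omega) (by omega)

theorem Uni2' (m : ℕ) : Uni ![m, m] (fun k => (m + m + 1 - k) / 2) (2 * m + 1) :=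
  Uni_pair (by omega) (by omega) (by omega)

theorem ms_two (u v : ℕ) : ms ![u, v] = {u} + {v} := by
  simp [ms, Fin.sum_univ_two]

/-- the critical degrees -/
theorem crit_raised {n m d : ℕ} (h37 : 37 ≤ n) (k : Fin n)
    (hd : |2 * (d : ℝ) + 3 - (√(n : ℝ) + 2 * ((n : ℝ) * m + 1) / √(n : ℝ))| < 4 / 3) :
    ((d + 2).choose 2 ≤ Pool.Agent.TH603.Sur.cond (Function.update (fun _ : Fin n => m) k (m + 1)) →
      Emp (Function.update (fun _ : Fin n => m) k (m + 1)) (TZ d)) ∧
    (Pool.Agent.TH603.Sur.cond (Function.update (fun _ : Fin n => m) k (m + 1)) ≤ (d + 2).choose 2 →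
      Sur (Function.update (fun _ : Fin n => m) k (m + 1)) (TZ d)) := by
  have h4 : n % 4 = 0 ∨ n % 4 = 1 ∨ n % 4 = 2 ∨ n % 4 = 3 := by omega
  rcases h4 with h | h | h | h
  · refine crit_raised_of (e := Sum.elim ![m + 1, m] ![m, m]) (a := n / 4 - 1) (c := 4) (C := 3 / 2)
      (by omega) (by omega) h37 (by norm_num) (by norm_num) ?_
      ((Uni2 m).stack (Uni2' m) 2 1 _ (pair_half (m + 1) m)) ?_ EndE4 (by simp) ?_ k hd
    · rw [ms_sum, ms_two, ms_two]
      simp only [succ_nsmul, zero_nsmul, zero_add]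
      abel
    · intro j hj
      have k1 := pair_bd hj
      have k2 := pair_bd' hj
      push_cast at k1 k2 ⊢
      linarith
    · rintro (i | i) <;> fin_cases i <;> simp
  · refine crit_raised_of (e := Sum.elim ![m + 1, m] (fun _ : Fin 3 => m)) (a := n / 4 - 1) (c := 5)
      (C := 7 / 4) (by omega) (by omega) h37 (by norm_num) (by norm_num) ?_
      ((Uni2 m).stack (Uni3 m (by omega)) 2 1 _ (pair_half (m + 1) m)) ?_ endE_five (by simp) ?_ k hd
    · rw [ms_sum, ms_two, ms_fin]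
      simp only [succ_nsmul, zero_nsmul, zero_add]
      abel
    · intro j hj
      have k1 := pair_bd hj
      have k2 := three_bd hj
      push_cast at k1 k2 ⊢
      linarith
    · rintro (i | i) <;> fin_cases i <;> simp
  · refine crit_raised_of (e := ![m + 1, m]) (a := n / 4) (c := 2) (C := 1)
      (by omega) (by omega) h37 (by norm_num) (by norm_num) ?_
      (Uni2 m) ?_ endE_two (by simp) ?_ k hd
    · rw [ms_two]
      simp only [succ_nsmul, zero_nsmul, zero_add]
      abel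
    · intro j hj
      have k1 := pair_bd hj
      push_cast at k1 ⊢
      linarith
    · intro i
      fin_cases i <;> simp
  · refine crit_raised_of (e := Sum.elim ![m + 1, m] (Sum.elim ![m, m] (fun _ : Fin 3 => m)))
      (a := n / 4 - 1) (c := 7) (C := 9 / 4) (by omega) (by omega) h37 (by norm_num) (by norm_num) ?_
      ((Uni2 m).stack ((Uni2' m).stack (Uni3 m (by omega)) 2 1 _ (pair_half m m)) 2 1 _
        (pair_half (m + 1) m)) ?_ EndE7 (by simp) ?_ k hd
    · rw [ms_sum, ms_sum, ms_two, ms_two, ms_fin]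
      simp only [succ_nsmul, zero_nsmul, zero_add]
      abel
    · intro j hj
      have k1 := pair_bd hj
      have k2 := pair_bd' hj
      have k3 := three_bd hj
      push_cast at k1 k2 k3 ⊢
      linarith
    · rintro (i | i | i) <;> fin_cases i <;> simp

/-- **one raised multiplicity, every `n ≥ 37`, every multiplicity, every degree** -/
theorem exp_raised {n : ℕ} (hn : 37 ≤ n) {m : ℕ} (hm : 1 ≤ m) (k : Fin n) {L : Type} [Field L]
    [CharZero L] :
    ∃ F : MvPolynomial (Fin n × Fin 2) ℚ, F ≠ 0 ∧ ∀ (P : Fin n → Fin 2 → L),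
      MvPolynomial.aeval (fun ij : Fin n × Fin 2 => P ij.1 ij.2) F ≠ 0 →
      ∀ d : ℕ, ExpDim L (Function.update (fun _ => m) k (m + 1)) P d := by
  obtain ⟨w, hw⟩ : ∃ w, w = Function.update (fun _ : Fin n => m) k (m + 1) := ⟨_, rfl⟩
  have hnear : ∀ i, w i = m ∨ w i = m + 1 := by
    intro i
    rw [hw]
    by_cases h : i = k
    · subst h
      right; simp
    · left; rw [Function.update_of_ne h]
  have hW : ∑ i, (w i : ℝ) = (n : ℝ) * m + 1 := by
    have h1 : ∀ i, (w i : ℝ) = (m : ℝ) + if i = k then 1 else 0 := by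
      intro i
      rw [hw]
      by_cases h : i = k
      · subst h; simp
      · rw [Function.update_of_ne h, if_neg h, add_zero]
    rw [sum_congr rfl fun i _ => h1 i, sum_add_distrib, sum_ite_eq', if_pos (mem_univ k), sum_const,
      card_univ, Fintype.card_fin, nsmul_eq_mul]
  rcases le_or_gt (((m + 1 : ℕ) : ℝ)) ((n : ℝ) - 6 * √(n : ℝ) + 11) with hsm | hlg
  · obtain ⟨F, hF, hF'⟩ := near_points (L := L) (n := n) (m := m) (by omega) hm (w := w)
      hnear (near_cond (by omega) hnear (Or.inl hsm))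
    rw [← hw]
    exact ⟨F, hF, fun P hP d => hF' P hP d⟩
  · obtain ⟨F1, hF1, h1⟩ := Pool.Agent.TH434.NW.near_win (L := L) (by omega : 10 ≤ n) hm hnear
    have hwin := half_lt (by omega : 10 ≤ n)
    obtain ⟨T, hT⟩ : ∃ T : ℝ, T = √(n : ℝ) + 2 * ((n : ℝ) * m + 1) / √(n : ℝ) := ⟨_, rfl⟩
    have hcr : ∀ d : ℕ, |2 * (d : ℝ) + 3 - T| < 4 / 3 →
        ((d + 2).choose 2 ≤ Pool.Agent.TH603.Sur.cond w → Emp w (TZ d)) ∧
        (Pool.Agent.TH603.Sur.cond w ≤ (d + 2).choose 2 → Sur w (TZ d)) := by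
      intro d hd
      rw [hw]
      exact crit_raised hn k (by rw [← hT]; exact hd)
    have hb : ∀ d : ℕ, |2 * (d : ℝ) + 3 - T| < 4 / 3 → d ≤ ⌈T + 4 / 3⌉₊ := by
      intro d hd
      have h3 := (abs_lt.1 hd).2
      have h4 := Nat.le_ceil (T + 4 / 3)
      have h5 : (d : ℝ) ≤ (⌈T + 4 / 3⌉₊ : ℝ) := by
        have : (0 : ℝ) ≤ d := Nat.cast_nonneg d
        linarith
      exact_mod_cast h5
    obtain ⟨F2, hF2, h2⟩ := expDim_two (w := w)
      (A := fun d => |2 * (d : ℝ) + 3 - T| < 4 / 3 ∧ (d + 2).choose 2 ≤ Pool.Agent.TH603.Sur.cond w)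
      (B := fun d => |2 * (d : ℝ) + 3 - T| < 4 / 3 ∧ Pool.Agent.TH603.Sur.cond w ≤ (d + 2).choose 2)
      ⌈T + 4 / 3⌉₊ (fun d hd => hb d hd.1) (fun d hd => (hcr d hd.1).1 hd.2)
      (fun d hd => (hcr d hd.1).2 hd.2)
    rw [← hw]
    refine ⟨F1 * F2, mul_ne_zero hF1 hF2, fun P hP d => ?_⟩
    rw [map_mul] at hP
    rcases le_or_gt (4 / 3) |2 * (d : ℝ) + 3 - T| with h | h
    · refine h1 P (left_ne_zero_of_mul hP) d ?_
      rw [hW, ← hT]
      rcases le_abs.1 h with h3 | h3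
      · right; linarith [hwin.2]
      · left; linarith [hwin.1]
    · refine h2 P (right_ne_zero_of_mul hP) d ?_
      rcases le_total ((d + 2).choose 2) (Pool.Agent.TH603.Sur.cond w) with h3 | h3
      · exact Or.inl ⟨h, h3⟩
      · exact Or.inr ⟨h, h3⟩

end Pool.Agent.TH648.EN
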