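import Pool.Agent.TH648.EN.Stack

/-! The blocks: points on a line, pairs, triples. -/

namespace Pool.Agent.TH648.EN

open Finset Pool.Agent.TH176.Nag Pool.Agent.TH603.Sur

/-- all points on a line -/
theorem Uni_line {ι : Type} [Fintype ι] (w : ι → ℕ) {N : ℕ} (hN : ∀ i, w i ≤ N) :
    Uni w (fun k => ∑ i, (w i - k)) N := by
  refine ⟨fun k hk => sum_eq_zero fun i _ => Nat.sub_eq_zero_of_le ((hN i).trans hk), ?_, ?_⟩
  · rw [sum_comm]
    unfold Pool.Agent.TH603.Sur.cond
    exact sum_congr rfl fun i _ => sum_range_sub _ _ (hN i)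
  · refine (Emp_rows w 0).mono ?_
    rintro ⟨x, y⟩ ⟨h1, h2, h3⟩
    exact ⟨h2, h1, by simpa using h3⟩

theorem Uni_const (a M : ℕ) {N : ℕ} (hN : M ≤ N) :
    Uni (fun _ : Fin a => M) (fun k => a * (M - k)) N := by
  have h := Uni_line (fun _ : Fin a => M) (N := N) fun _ => hN
  have e : (fun k => ∑ _i : Fin a, (M - k)) = fun k => a * (M - k) := by
    funext k
    rw [sum_const, card_univ, Fintype.card_fin, smul_eq_mul]
  rw [e] at h
  exact h

theorem const_half (a M : ℕ) : ∀ x y : ℕ, x < a * (M - y) ↔ (1 : ℤ) * x + (a : ℤ) * y < (a : ℤ) * M := by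
  intro x y
  rcases le_total y M with h | h
  · obtain ⟨z, rfl⟩ := Nat.exists_eq_add_of_le h
    rw [Nat.add_sub_cancel_left]
    push_cast
    constructor
    · intro h1
      have : (x : ℤ) < a * z := by exact_mod_cast h1
      nlinarith
    · intro h1
      have : (x : ℤ) < a * z := by nlinarith
      exact_mod_cast this
  · rw [Nat.sub_eq_zero_of_le h, mul_zero]
    constructor
    · intro h1; omega
    · intro h1
      exfalso
      have h2 : (a : ℤ) * M ≤ a * y := mul_le_mul_of_nonneg_left (by exact_mod_cast h) (by positivity)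
      omega

theorem pair_sum (s : ℕ) : ∑ y ∈ range s, (s + 1 - y) / 2 =
    ((s + 1) / 2 + 1).choose 2 + (s / 2 + 1).choose 2 := by
  induction s with
  | zero => rfl
  | succ s ih =>
    rw [sum_range_succ']
    have e : ∀ y ∈ range s, (s + 1 + 1 - (y + 1)) / 2 = (s + 1 - y) / 2 := fun y _ => by
      rw [Nat.add_sub_add_right]
    rw [sum_congr rfl e, ih]
    have e2 : (s + 1 + 1) / 2 = s / 2 + 1 := by omega
    rw [e2, Nat.choose_succ_succ (s / 2 + 1) 1, Nat.choose_one_right]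
    have e3 : (s + 1 + 1 - 0) / 2 = s / 2 + 1 := by omega
    rw [e3]
    ring

/-- two points of multiplicities `u` and `v`, `v ≤ u ≤ v + 1`, on a vertical line -/
theorem Uni_pair {u v N : ℕ} (h1 : v ≤ u) (h2 : u ≤ v + 1) (hN : u + v ≤ N) :
    Uni ![u, v] (fun k => (u + v + 1 - k) / 2) N := by
  refine ⟨fun k hk => by omega, ?_, ?_⟩
  · rw [sum_more (l := fun k => (u + v + 1 - k) / 2) (N := u + v) (fun k hk => by omega) hN,
      pair_sum]
    unfold Pool.Agent.TH603.Sur.cond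
    rw [Fin.sum_univ_two]
    have e1 : (u + v + 1) / 2 = u := by omega
    have e2 : (u + v) / 2 = v := by omega
    rw [e1, e2]
    rfl
  · have h := Emp_rows ![u, v] 0
    refine h.comap 0 1 1 0 0 0 (by norm_num) ?_
    rintro ⟨x, y⟩ ⟨k1, k2, k3⟩
    simp only at k1 k2 k3
    obtain ⟨x, rfl⟩ := Int.eq_ofNat_of_zero_le k1
    obtain ⟨y, rfl⟩ := Int.eq_ofNat_of_zero_le k2
    rw [Int.toNat_natCast] at k3
    have k4 : x < (u + v + 1 - y) / 2 := by exact_mod_cast k3
    refine ⟨?_, ?_, ?_⟩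
    · simp only
      omega
    · simp only
      omega
    · have e : (1 * (x : ℤ) + 0 * (y : ℤ) + 0).toNat = x := by simp
      simp only [e, Fin.sum_univ_two, Matrix.cons_val_zero, Matrix.cons_val_one]
      omega

theorem pair_half (u v : ℕ) : ∀ x y : ℕ, x < (u + v + 1 - y) / 2 ↔
    (2 : ℤ) * x + (1 : ℤ) * y < ((u + v : ℕ) : ℤ) := by
  intro x y
  omega

theorem three_sum (m : ℕ) : ∑ y ∈ range (2 * m), (6 * m - 3 * y + 3) / 4 = 3 * (m + 1).choose 2 := by
  induction m with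
  | zero => rfl
  | succ m ih =>
    rw [show 2 * (m + 1) = 2 * m + 1 + 1 by ring, sum_range_succ', sum_range_succ']
    have e : ∀ y ∈ range (2 * m), (6 * (m + 1) - 3 * (y + 1 + 1) + 3) / 4 =
        (6 * m - 3 * y + 3) / 4 := fun y _ => by
      congr 1
      omega
    rw [sum_congr rfl e, ih, Nat.choose_succ_succ (m + 1) 1, Nat.choose_one_right]
    have e3 : (6 * (m + 1) - 3 * (0 + 1) + 3) / 4 + (6 * (m + 1) - 3 * 0 + 3) / 4 = 3 * (m + 1) := by
      omega
    rw [add_assoc, e3]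
    ring

/-- three points of multiplicity `m` -/
theorem Uni_three {m N : ℕ} (h : Emp (fun _ : Fin 3 => m) {p : ℤ × ℤ | 0 ≤ p.1 ∧ 0 ≤ p.2 ∧
    4 * p.1 + 3 * p.2 < 6 * (m : ℤ)}) (hN : 2 * m ≤ N) :
    Uni (fun _ : Fin 3 => m) (fun k => (6 * m - 3 * k + 3) / 4) N := by
  refine ⟨fun k hk => by omega, ?_, ?_⟩
  · rw [sum_more (l := fun k => (6 * m - 3 * k + 3) / 4) (N := 2 * m)
      (fun k hk => by omega) hN, three_sum]
    unfold Pool.Agent.TH603.Sur.cond
    rw [sum_const, card_univ, Fintype.card_fin, smul_eq_mul]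
  · refine h.mono ?_
    rintro ⟨x, y⟩ ⟨k1, k2, k3⟩
    simp only at k1 k2 k3
    obtain ⟨x, rfl⟩ := Int.eq_ofNat_of_zero_le k1
    obtain ⟨y, rfl⟩ := Int.eq_ofNat_of_zero_le k2
    rw [Int.toNat_natCast] at k3
    have k4 : x < (6 * m - 3 * y + 3) / 4 := by exact_mod_cast k3
    refine ⟨k1, k2, ?_⟩
    simp only
    omega

end Pool.Agent.TH648.EN
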