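import Pool.Agent.TH648.EN.Blocks
import Pool.Agent.TH641.EN.Fin
import Pool.Agent.TH434.NW.Near

/-! One raised multiplicity: the two ends. -/

namespace Pool.Agent.TH648.EN

open Finset Pool.Agent.TH176.Nag Pool.Agent.TH603.Sur Pool.Agent.TH641.UM Pool.Agent.TH760.EN

/-- the end `S` with arbitrary spectators -/
theorem Sur_end {κ : Type} [Fintype κ] {e : κ → ℕ} {t : ℕ → ℕ} {a c n m d : ℕ} {C : ℝ}
    (hn : n = 4 * a + c) (h36 : 36 ≤ n) (hU : Uni e t (2 * m + 1))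
    (ht : ∀ k, k ≤ 2 * m → (t k : ℝ) ≤ (c : ℝ) / 4 * (2 * m - k) + C)
    (h : (n : ℝ) * m / 2 + n / 4 + C < √(n : ℝ) / 2 * (d + 3)) :
    Sur (Sum.elim (fun _ : Fin a => 2 * m) e) (TZ d) := by
  have hU' := (Uni_const a (2 * m) (N := 2 * m + 1) (by omega)).stack hU 1 a
    ((a : ℤ) * ((2 * m : ℕ) : ℤ)) (const_half a (2 * m))
  have hnR : (36 : ℝ) ≤ n := by exact_mod_cast h36
  have hnac : (n : ℝ) = 4 * a + c := by rw [hn]; push_cast; ring
  have hs6 : 6 ≤ √(n : ℝ) := Real.le_sqrt_of_sq_le (by norm_num; linarith)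
  have hss : √(n : ℝ) * √(n : ℝ) = n := Real.mul_self_sqrt (by linarith)
  refine Sur_plane (r := √(n : ℝ) / 2) hU'.fin hU'.sur (by linarith) ?_
  intro k hk
  have hkm : k ≤ 2 * m := by
    by_contra hcon
    rw [hU'.fin k (by omega)] at hk
    omega
  have h1 := ht k hkm
  obtain ⟨j, hj⟩ := Nat.exists_eq_add_of_le hkm
  have e1 : 2 * m - k = j := by omega
  have hjR : (2 : ℝ) * m = k + j := by exact_mod_cast hj
  simp only [e1]
  push_cast
  have e2 : (√(n : ℝ) / 2) ^ 2 = n / 4 := by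
    rw [div_pow, sq, hss]; norm_num
  rw [e2]
  have h2 : (2 : ℝ) * m - k = j := by linarith
  rw [h2] at h1
  have h3 : (a : ℝ) * j + (t k : ℝ) + n / 4 * (k + 1) ≤ n * m / 2 + n / 4 + C := by
    have h4 : (n : ℝ) * m / 2 = n / 4 * (k + j) := by rw [← hjR]; ring
    rw [h4, hnac]
    nlinarith
  linarith

/-- the end `E` with arbitrary spectators -/
theorem Emp_end {κ : Type} [Fintype κ] {e : κ → ℕ} {a c n m d : ℕ} (hE : EndE c)
    (hc : Fintype.card κ = c) (he : ∀ i, m ≤ e i) (hn : n = 4 * a + c) (h36 : 36 ≤ n)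
    (h : √(n : ℝ) * d < (n : ℝ) * m + 2 * a) :
    Emp (Sum.elim (fun _ : Fin a => 2 * m + 1) e) (TZ d) := by
  have h1 := hE a n m d hn h36 h
  refine Emp_emb (Sum.map id (Fintype.equivFinOfCardEq hc).symm)
    (Sum.map_injective.2 ⟨Function.injective_id, (Fintype.equivFinOfCardEq hc).symm.injective⟩) ?_ h1
  rintro (i | i)
  · exact le_rfl
  · exact he _

theorem pair_bd {m k : ℕ} (hk : k ≤ 2 * m) :
    (((m + 1 + m + 1 - k) / 2 : ℕ) : ℝ) ≤ 1 / 2 * (2 * m - k) + 1 := by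
  obtain ⟨j, hj⟩ := Nat.exists_eq_add_of_le hk
  have h1 : 2 * ((m + 1 + m + 1 - k) / 2) ≤ j + 2 := by omega
  have h2 : (2 : ℝ) * (((m + 1 + m + 1 - k) / 2 : ℕ) : ℝ) ≤ j + 2 := by exact_mod_cast h1
  have hjR : (2 : ℝ) * m = k + j := by exact_mod_cast hj
  linarith

theorem pair_bd' {m k : ℕ} (hk : k ≤ 2 * m) :
    (((m + m + 1 - k) / 2 : ℕ) : ℝ) ≤ 1 / 2 * (2 * m - k) + 1 / 2 := by
  obtain ⟨j, hj⟩ := Nat.exists_eq_add_of_le hk
  have h1 : 2 * ((m + m + 1 - k) / 2) ≤ j + 1 := by omega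
  have h2 : (2 : ℝ) * (((m + m + 1 - k) / 2 : ℕ) : ℝ) ≤ j + 1 := by exact_mod_cast h1
  have hjR : (2 : ℝ) * m = k + j := by exact_mod_cast hj
  linarith

theorem three_bd {m k : ℕ} (hk : k ≤ 2 * m) :
    (((6 * m - 3 * k + 3) / 4 : ℕ) : ℝ) ≤ 3 / 4 * (2 * m - k) + 3 / 4 := by
  obtain ⟨j, hj⟩ := Nat.exists_eq_add_of_le hk
  have h1 : 4 * ((6 * m - 3 * k + 3) / 4) ≤ 3 * j + 3 := by omega
  have h2 : (4 : ℝ) * (((6 * m - 3 * k + 3) / 4 : ℕ) : ℝ) ≤ 3 * j + 3 := by exact_mod_cast h1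
  have hjR : (2 : ℝ) * m = k + j := by exact_mod_cast hj
  linarith

/-- three points of multiplicity `m` -/
theorem Uni3 (m : ℕ) {N : ℕ} (hN : 2 * m ≤ N) :
    Uni (fun _ : Fin 3 => m) (fun k => (6 * m - 3 * k + 3) / 4) N := by
  refine Uni_three ((Pool.Agent.TH406.EN.he3 m).mono ?_) hN
  rintro ⟨x, y⟩ ⟨k1, k2, k3⟩
  refine ⟨k1, k2, ?_⟩
  simp only at k3 ⊢
  push_cast
  linarith

theorem HE4 : HE 4 := by
  intro m
  have h := ((Uni_pair (u := m) (v := m) (N := 2 * m) le_rfl (by omega) (by omega)).stack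
    (Uni_pair (u := m) (v := m) (N := 2 * m) le_rfl (by omega) (by omega)) 2 1 _
    (pair_half m m)).emp
  have h2 : Emp (fun _ : Fin 4 => m) (Tl fun k => (m + m + 1 - k) / 2 + (m + m + 1 - k) / 2) := by
    refine Emp_emb (Fintype.equivFinOfCardEq (α := Fin 2 ⊕ Fin 2) (by simp))
      (Equiv.injective _) ?_ h
    rintro (i | i) <;> fin_cases i <;> simp
  refine h2.mono ?_
  rintro ⟨x, y⟩ ⟨k1, k2, k3⟩
  simp only at k1 k2 k3
  obtain ⟨x, rfl⟩ := Int.eq_ofNat_of_zero_le k1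
  obtain ⟨y, rfl⟩ := Int.eq_ofNat_of_zero_le k2
  refine ⟨k1, k2, ?_⟩
  simp only [Int.toNat_natCast]
  push_cast at k3
  omega

theorem HE7 : HE 7 := by
  intro m
  have h := ((Uni_pair (u := m) (v := m) (N := 2 * m) le_rfl (by omega) (by omega)).stack
    ((Uni_pair (u := m) (v := m) (N := 2 * m) le_rfl (by omega) (by omega)).stack
      (Uni3 m (N := 2 * m) le_rfl) 2 1 _ (pair_half m m)) 2 1 _ (pair_half m m)).emp
  have h2 : Emp (fun _ : Fin 7 => m) (Tl fun k => (m + m + 1 - k) / 2 + ((m + m + 1 - k) / 2 +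
      (6 * m - 3 * k + 3) / 4)) := by
    refine Emp_emb (Fintype.equivFinOfCardEq (α := Fin 2 ⊕ (Fin 2 ⊕ Fin 3)) (by simp))
      (Equiv.injective _) ?_ h
    rintro (i | i | i) <;> fin_cases i <;> simp
  refine h2.mono ?_
  rintro ⟨x, y⟩ ⟨k1, k2, k3⟩
  simp only at k1 k2 k3
  obtain ⟨x, rfl⟩ := Int.eq_ofNat_of_zero_le k1
  obtain ⟨y, rfl⟩ := Int.eq_ofNat_of_zero_le k2
  refine ⟨k1, k2, ?_⟩
  simp only [Int.toNat_natCast]
  push_cast at k3
  omega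

theorem EndE4 : EndE 4 := Pool.Agent.TH641.EN.endE_of (by norm_num) HE4

theorem EndE7 : EndE 7 := Pool.Agent.TH641.EN.endE_of (by norm_num) HE7

end Pool.Agent.TH648.EN
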