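import Pool.Agent.TH648.SH.Absorb

/-! Stacking unisolvent sets of rows. -/

namespace Pool.Agent.TH648.EN

open Finset Pool.Agent.TH176.Nag Pool.Agent.TH603.Sur Pool.Agent.TH603.Cut
open Filter Topology

/-- rows of `l y` exponents -/
def Tl (l : ℕ → ℕ) : Set (ℤ × ℤ) := {m | 0 ≤ m.1 ∧ 0 ≤ m.2 ∧ m.1 < (l m.2.toNat : ℤ)}

theorem Tl_finite {l : ℕ → ℕ} {N : ℕ} (hN : ∀ k, N ≤ k → l k = 0) : (Tl l).Finite := by
  apply Set.Finite.subset (Set.finite_Icc ((0, 0) : ℤ × ℤ)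
    ((((∑ k ∈ range N, l k : ℕ) : ℤ), (N : ℤ)) : ℤ × ℤ))
  rintro ⟨x, y⟩ ⟨h1, h2, h3⟩
  simp only at h1 h2 h3
  obtain ⟨k, rfl⟩ := Int.eq_ofNat_of_zero_le h2
  rw [Int.toNat_natCast] at h3
  have hk : k < N := by
    by_contra hcon
    rw [hN k (by omega)] at h3
    simp at h3
    omega
  have h4 : l k ≤ ∑ k ∈ range N, l k :=
    single_le_sum (f := l) (fun _ _ => Nat.zero_le _) (mem_range.2 hk)
  rw [Set.mem_Icc, Prod.mk_le_mk, Prod.mk_le_mk]
  refine ⟨⟨h1, h2⟩, ?_, ?_⟩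
  · have : ((l k : ℕ) : ℤ) ≤ ((∑ k ∈ range N, l k : ℕ) : ℤ) := by exact_mod_cast h4
    omega
  · omega

/-- pushing rows to the left -/
theorem Emp_push {ι : Type} {w : ι → ℕ} {l s : ℕ → ℕ} (h : Emp w (Tl l)) :
    Emp w {m : ℤ × ℤ | 0 ≤ m.2 ∧ (s m.2.toNat : ℤ) ≤ m.1 ∧
      m.1 < (s m.2.toNat : ℤ) + (l m.2.toNat : ℤ)} := by
  have h1 : Emp w {m : ℤ × ℤ | ((m.2, m.1) : ℤ × ℤ) ∈ Tl l} := by
    refine h.comap 0 1 1 0 0 0 (by norm_num) ?_
    rintro ⟨a, b⟩ hab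
    simpa using hab
  have h2 : Emp w {m : ℤ × ℤ | 0 ≤ m.1 ∧ (s m.1.toNat : ℤ) ≤ m.2 ∧
      m.2 < (s m.1.toNat : ℤ) + (l m.1.toNat : ℤ)} := by
    refine Emp_flat0 ?_ h1
    intro a B hB k hk
    have hne : B.Nonempty := card_pos.1 (by omega)
    obtain ⟨b0, hb0⟩ := hne
    have ha : 0 ≤ a := (hB b0 hb0).1
    have hsub : B ⊆ Finset.Ico ((s a.toNat : ℤ)) ((s a.toNat : ℤ) + (l a.toNat : ℤ)) := by
      intro b hb
      rw [Finset.mem_Ico]
      exact (hB b hb).2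
    have hcard := card_le_card hsub
    rw [Int.card_Ico] at hcard
    refine ⟨by simp, ha, ?_⟩
    simp only
    omega
  refine h2.comap 0 1 1 0 0 0 (by norm_num) ?_
  rintro ⟨a, b⟩ hab
  simpa using hab

/-- stacking -/
theorem Emp_stack {ι κ : Type} [Finite ι] [Finite κ] {w : ι → ℕ} {v : κ → ℕ} {l1 l2 : ℕ → ℕ} {N : ℕ}
    (hN : ∀ k, N ≤ k → l1 k + l2 k = 0) (p q C : ℤ)
    (hpq : ∀ x y : ℕ, x < l1 y ↔ p * x + q * y < C) (h1 : Emp w (Tl l1)) (h2 : Emp v (Tl l2)) :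
    Emp (Sum.elim w v) (Tl fun k => l1 k + l2 k) := by
  have hfin := Tl_finite (l := fun k => l1 k + l2 k) hN
  set A : Set (ℤ × ℤ) := {m | m ∈ Tl (fun k => l1 k + l2 k) ∧ p * m.1 + q * m.2 < C} with hA
  set B : Set (ℤ × ℤ) := {m | m ∈ Tl (fun k => l1 k + l2 k) ∧ C ≤ p * m.1 + q * m.2} with hB
  have hAB : Tl (fun k => l1 k + l2 k) = A ∪ B := by
    ext m
    constructor
    · intro hm
      rcases lt_or_ge (p * m.1 + q * m.2) C with h | h
      · exact Or.inl ⟨hm, h⟩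
      · exact Or.inr ⟨hm, h⟩
    · rintro (hm | hm) <;> exact hm.1
  rw [hAB]
  refine Pool.Agent.TH698.NagT3.Emp_cut (hfin.subset fun m hm => hm.1) (hfin.subset fun m hm => hm.1)
    (fun m hm => ⟨hm.1.1, hm.1.2.1⟩) (fun m hm => ⟨hm.1.1, hm.1.2.1⟩) p q
    (fun m hm m' hm' => lt_of_lt_of_le hm.2 hm'.2) ?_ ?_
  · refine h1.mono ?_
    rintro ⟨x, y⟩ ⟨⟨k1, k2, k3⟩, k4⟩
    simp only at k1 k2 k3 k4
    obtain ⟨x, rfl⟩ := Int.eq_ofNat_of_zero_le k1
    obtain ⟨y, rfl⟩ := Int.eq_ofNat_of_zero_le k2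
    refine ⟨k1, k2, ?_⟩
    simp only [Int.toNat_natCast]
    have := (hpq x y).2 k4
    exact_mod_cast this
  · refine (Emp_push (s := l1) h2).mono ?_
    rintro ⟨x, y⟩ ⟨⟨k1, k2, k3⟩, k4⟩
    simp only at k1 k2 k3 k4
    obtain ⟨x, rfl⟩ := Int.eq_ofNat_of_zero_le k1
    obtain ⟨y, rfl⟩ := Int.eq_ofNat_of_zero_le k2
    refine ⟨k2, ?_, ?_⟩
    · simp only [Int.toNat_natCast]
      by_contra hcon
      have h3 : x < l1 y := by
        have : (x : ℤ) < (l1 y : ℤ) := not_le.1 hcon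
        exact_mod_cast this
      have := (hpq x y).1 h3
      omega
    · simp only [Int.toNat_natCast] at k3 ⊢
      push_cast at k3
      exact k3

/-- a unisolvent set of rows -/
structure Uni {ι : Type} [Fintype ι] (w : ι → ℕ) (l : ℕ → ℕ) (N : ℕ) : Prop where
  fin : ∀ k, N ≤ k → l k = 0
  sum : ∑ k ∈ range N, l k = cond w
  emp : Emp w (Tl l)

theorem cond_elim {ι κ : Type} [Fintype ι] [Fintype κ] (w : ι → ℕ) (v : κ → ℕ) :
    cond (Sum.elim w v) = cond w + cond v := by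
  unfold Pool.Agent.TH603.Sur.cond
  rw [Fintype.sum_sum_type]
  simp

theorem sum_more {l : ℕ → ℕ} {N M : ℕ} (hN : ∀ k, N ≤ k → l k = 0) (h : N ≤ M) :
    ∑ k ∈ range M, l k = ∑ k ∈ range N, l k := by
  symm
  apply Finset.sum_subset (Finset.range_mono h)
  intro k _ hk
  rw [mem_range] at hk
  exact hN k (by omega)

theorem Uni.more {ι : Type} [Fintype ι] {w : ι → ℕ} {l : ℕ → ℕ} {N M : ℕ} (h : Uni w l N)
    (hM : N ≤ M) : Uni w l M :=
  ⟨fun k hk => h.fin k (by omega), by rw [sum_more h.fin hM, h.sum], h.emp⟩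

theorem Uni.stack {ι κ : Type} [Fintype ι] [Fintype κ] {w : ι → ℕ} {v : κ → ℕ} {l1 l2 : ℕ → ℕ}
    {N : ℕ} (h1 : Uni w l1 N) (h2 : Uni v l2 N) (p q C : ℤ)
    (hpq : ∀ x y : ℕ, x < l1 y ↔ p * x + q * y < C) :
    Uni (Sum.elim w v) (fun k => l1 k + l2 k) N :=
  ⟨fun k hk => by rw [h1.fin k hk, h2.fin k hk],
    by rw [sum_add_distrib, h1.sum, h2.sum, cond_elim],
    Emp_stack (N := N) (fun k hk => by rw [h1.fin k hk, h2.fin k hk]) p q C hpq h1.emp h2.emp⟩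

/-- independence from a unisolvent set -/
theorem Uni.sur {ι : Type} [Fintype ι] {w : ι → ℕ} {l : ℕ → ℕ} {N : ℕ} (h : Uni w l N) :
    Sur w (Tl l) := by
  classical
  let T : Finset (ℤ × ℤ) := (range N).biUnion fun k =>
    (range (l k)).image fun j : ℕ => (((j : ℤ), (k : ℤ)) : ℤ × ℤ)
  have hT : (↑T : Set (ℤ × ℤ)) ⊆ Tl l := by
    intro m hm
    rw [mem_coe] at hm
    simp only [T, mem_biUnion, mem_image, mem_range] at hm
    obtain ⟨k, hk, j, hj, rfl⟩ := hm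
    refine ⟨by simp, by simp, ?_⟩
    simp only [Int.toNat_natCast]
    exact_mod_cast hj
  refine ⟨T, hT, ?_, h.emp.mono hT⟩
  rw [card_biUnion]
  · have h1 : ∀ k ∈ range N, ((range (l k)).image fun j : ℕ => (((j : ℤ), (k : ℤ)) : ℤ × ℤ)).card =
        l k := by
      intro k _
      rw [card_image_of_injective, card_range]
      intro j j' hjj
      have := (Prod.mk.inj hjj).1
      omega
    rw [sum_congr rfl h1, h.sum]
  · intro k _ k' _ hne
    rw [Function.onFun, disjoint_left]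
    intro m hm hm'
    rw [mem_image] at hm hm'
    obtain ⟨j, _, rfl⟩ := hm
    obtain ⟨j', _, h⟩ := hm'
    apply hne
    have := (Prod.mk.inj h).2
    omega

/-- from rows to real triangles -/
theorem Sur_RegO {ι : Type} [Fintype ι] {w : ι → ℕ} {l : ℕ → ℕ} (hS : Sur w (Tl l)) (α B n : ℝ)
    (h : ∀ k : ℕ, 0 < l k → (l k : ℝ) + n * (k + 1) < B) : Sur w (RegO α (α + B) 0 n) := by
  refine hS.shift (-(⌊α⌋ + 1)) (-1) ?_
  rintro ⟨a, b⟩ ⟨h1, h2, h3⟩
  simp only at h1 h2 h3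
  obtain ⟨a, rfl⟩ := Int.eq_ofNat_of_zero_le h1
  obtain ⟨k, rfl⟩ := Int.eq_ofNat_of_zero_le h2
  rw [Int.toNat_natCast] at h3
  have h3' : a < l k := by exact_mod_cast h3
  have h4 := h k (by omega)
  have h5 : (a : ℝ) + 1 ≤ l k := by exact_mod_cast h3'
  have h6 := Int.floor_le α
  have h7 := Int.lt_floor_add_one α
  have h8 : (0 : ℝ) ≤ a := Nat.cast_nonneg a
  refine ⟨by simp only; omega, ?_, ?_⟩
  · simp only
    push_cast
    linarith
  · simp only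
    push_cast
    linarith

/-- independence in the plane, irrational case -/
theorem Sur_plane_irr {ι : Type} [Fintype ι] {w : ι → ℕ} {l : ℕ → ℕ} {N : ℕ}
    (hN : ∀ k, N ≤ k → l k = 0) (hS : Sur w (Tl l)) {d : ℕ} {r : ℝ} (hr : 3 ≤ r)
    (hirr : Irrational r)
    (h : ∀ k : ℕ, 0 < l k → (l k : ℝ) + r ^ 2 * (k + 1) < r * (d + 3)) :
    Sur w (TZ d) := by
  have hr0 : 0 < r := by linarith
  -- a slightly smaller size
  obtain ⟨c, hc0, hcd, hc⟩ : ∃ c : ℝ, 0 ≤ c ∧ c < d + 3 ∧ ∀ k : ℕ, 0 < l k →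
      (l k : ℝ) + r ^ 2 * (k + 1) ≤ c * r := by
    have hev : ∀ᶠ c in 𝓝 ((d : ℝ) + 3), ∀ k ∈ range N, 0 < l k →
        (l k : ℝ) + r ^ 2 * (k + 1) < c * r := by
      rw [Filter.eventually_all_finset]
      intro k _
      by_cases h1 : 0 < l k
      · have h2 := h k h1
        have h3 : Filter.Tendsto (fun c : ℝ => c * r) (𝓝 ((d : ℝ) + 3)) (𝓝 (((d : ℝ) + 3) * r)) := by
          apply Continuous.tendsto
          fun_prop
        have h4 : (l k : ℝ) + r ^ 2 * (k + 1) < ((d : ℝ) + 3) * r := by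
          have := h k h1
          linarith
        filter_upwards [h3.eventually (Ioi_mem_nhds h4)] with c hc _ using hc
      · exact Filter.Eventually.of_forall fun c h2 => absurd h2 h1
    obtain ⟨ε, hε, hball⟩ := Metric.eventually_nhds_iff.1 hev
    have hd : (0 : ℝ) ≤ d := Nat.cast_nonneg d
    obtain ⟨c, hc1, hc2⟩ : ∃ c : ℝ, max 0 ((d : ℝ) + 3 - ε) < c ∧ c < d + 3 :=
      exists_between (max_lt (by linarith) (by linarith))
    refine ⟨c, (le_max_left _ _).trans hc1.le, hc2, fun k hk => ?_⟩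
    have hc3 := hball (y := c) (by
      rw [Real.dist_eq, abs_sub_comm, abs_of_pos (by linarith)]
      have := lt_of_le_of_lt (le_max_right (0 : ℝ) _) hc1
      linarith)
    refine (hc3 k (mem_range.2 ?_) hk).le
    by_contra hcon
    rw [hN k (by omega)] at hk
    omega
  have hSP : SP w c 0 (r ^ 2) := by
    refine ⟨by positivity, fun E hE α => ?_⟩
    rw [zero_add, Real.sqrt_sq hr0.le]
    apply Sur_RegO hS
    intro k hk
    have h1 := hc k hk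
    have h2 : c * r < E * r := mul_lt_mul_of_pos_right hE hr0
    linarith
  obtain ⟨k, τ, hk, h0, h1⟩ := Pool.Agent.TH648.SH.exists_tau r
  have h2 := (Pool.Agent.TH648.SH.Mv_tau hr k hk).closed (SP_closed hc0) hSP
  have h3 := h2.2 ((d : ℝ) + 3) hcd (-(((d : ℝ) + 3) * (1 + τ)))
  have e1 : 3 * (1 + τ) + 3 * (2 - τ) = (3 : ℝ) ^ 2 := by ring
  rw [e1, Real.sqrt_sq (by norm_num)] at h3
  have e2 : -(((d : ℝ) + 3) * (1 + τ)) + ((d : ℝ) + 3) * 3 = ((d : ℝ) + 3) * (2 - τ) := by ring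
  rw [e2] at h3
  refine Pool.Agent.TH648.SH.Sur_keyO h0 h1 ?_ h3
  intro hq
  obtain ⟨q, hq⟩ := hq
  apply hirr
  refine ⟨(k + 3 * q) / 3, ?_⟩
  push_cast
  rw [hq]
  linarith

/-- **independence in the plane from a unisolvent set of rows** -/
theorem Sur_plane {ι : Type} [Fintype ι] {w : ι → ℕ} {l : ℕ → ℕ} {N : ℕ}
    (hN : ∀ k, N ≤ k → l k = 0) (hS : Sur w (Tl l)) {d : ℕ} {r : ℝ} (hr : 3 ≤ r)
    (h : ∀ k : ℕ, 0 < l k → (l k : ℝ) + r ^ 2 * (k + 1) < r * (d + 3)) :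
    Sur w (TZ d) := by
  have hev : ∀ᶠ s in 𝓝 r, ∀ k ∈ range N, 0 < l k →
      (l k : ℝ) + s ^ 2 * (k + 1) < s * (d + 3) := by
    rw [Filter.eventually_all_finset]
    intro k _
    by_cases h1 : 0 < l k
    · have h2 := h k h1
      have h3 : Filter.Tendsto (fun s : ℝ => s * ((d : ℝ) + 3) -
          ((l k : ℝ) + s ^ 2 * (k + 1))) (𝓝 r)
          (𝓝 (r * ((d : ℝ) + 3) - ((l k : ℝ) + r ^ 2 * (k + 1)))) := by
        apply Continuous.tendsto
        fun_prop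
      filter_upwards [h3.eventually (Ioi_mem_nhds (a := 0) (by linarith))] with s hs _
      have hs' : 0 < s * ((d : ℝ) + 3) - ((l k : ℝ) + s ^ 2 * (k + 1)) := hs
      linarith
    · exact Filter.Eventually.of_forall fun c h2 => absurd h2 h1
  obtain ⟨ε, hε, hball⟩ := Metric.eventually_nhds_iff.1 hev
  obtain ⟨s, hs, hs1, hs2⟩ := exists_irrational_btwn (show r < r + ε by linarith)
  have h2 := hball (y := s) (by rw [Real.dist_eq, abs_of_pos (by linarith)]; linarith)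
  refine Sur_plane_irr hN hS (by linarith) hs fun k hk => h2 k (mem_range.2 ?_) hk
  by_contra hcon
  rw [hN k (by omega)] at hk
  omega

end Pool.Agent.TH648.EN
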